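import Mathlib

set_option autoImplicit false

/-! Perfect difference families with blocks of size `4`: basic definitions. -/

namespace Pool.Agent.PDF4

/-- `n` is one of the six differences of the block with gaps `b.1`, `b.2.1`, `b.2.2`. -/
def D (b : ℕ × ℕ × ℕ) (n : ℕ) : Prop :=
  n = b.1 ∨ n = b.2.1 ∨ n = b.2.2 ∨ n = b.1 + b.2.1 ∨ n = b.2.1 + b.2.2 ∨ n = b.1 + b.2.1 + b.2.2

/-- `n` is a difference of one of the blocks of the list. -/
def Cov (L : List (ℕ × ℕ × ℕ)) (n : ℕ) : Prop := ∃ b ∈ L, D b n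

end Pool.Agent.PDF4
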