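import Pool.Agent.PDF4.Basic
import Pool.Agent.Graceful.Basic

set_option autoImplicit false

/-! Perfect difference families with blocks of size `4` give graceful labellings of `K_4^(m)`. -/

namespace Pool.Agent.PDF4

open Pool.Agent.Graceful

theorem card_edges (m : ℕ) : Nat.card (B 4 1 m).edgeSet = 6 * m := by
  have h := two_edges 4 1 m
  have h2 : (Nat.card (B 4 1 m).edgeSet : ℝ) = ((6 * m : ℕ) : ℝ) := by
    have h3 : ((1 : ℕ) : ℝ) + ((4 - 1 : ℕ) : ℝ) = 4 := by norm_num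
    have h4 : ((4 - 1 : ℕ) : ℝ) = 3 := by norm_num
    rw [h3, h4] at h
    push_cast at h ⊢
    linarith
  exact_mod_cast h2

/-- The three non-zero marks of a block. -/
def marks (b : ℕ × ℕ × ℕ) : Fin 3 → ℕ := ![b.1, b.1 + b.2.1, b.1 + b.2.1 + b.2.2]

theorem graceful_of_list (m : ℕ) (L : List (ℕ × ℕ × ℕ)) (hlen : L.length = m)
    (hcov : ∀ n, 1 ≤ n → n ≤ 6 * m → Cov L n) : IsGraceful (B 4 1 m) := by
  subst hlen
  let f : Fin 1 ⊕ Fin L.length × Fin 3 → ℕ :=
    Sum.elim (fun _ => 0) (fun p => marks (L.get p.1) p.2)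
  have hadj0 : ∀ p : Fin L.length × Fin 3, (B 4 1 L.length).Adj (Sum.inl 0) (Sum.inr p) :=
    fun p => ⟨by simp, fun j x j' x' h => by simp at h⟩
  have hadj1 : ∀ (j : Fin L.length) (x y : Fin 3), x ≠ y →
      (B 4 1 L.length).Adj (Sum.inr (j, x)) (Sum.inr (j, y)) := by
    intro j x y hxy
    refine ⟨by simpa using hxy, ?_⟩
    intro a b c d h1 h2
    have h3 := congrArg Prod.fst (Sum.inr_injective h1)
    have h4 := congrArg Prod.fst (Sum.inr_injective h2)
    exact h3.symm.trans h4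
  have hc : ∀ k, 1 ≤ k → k ≤ Nat.card (B 4 1 L.length).edgeSet →
      ∃ u v, (B 4 1 L.length).Adj u v ∧ Nat.dist (f u) (f v) = k := by
    intro k hk1 hk2
    rw [card_edges] at hk2
    obtain ⟨b, hb, hD⟩ := hcov k hk1 hk2
    obtain ⟨j, rfl⟩ := List.get_of_mem hb
    rcases hD with h | h | h | h | h | h
    · exact ⟨Sum.inl 0, Sum.inr (j, 0), hadj0 _, by simp [f, marks, Nat.dist, h]⟩
    · exact ⟨Sum.inr (j, 0), Sum.inr (j, 1), hadj1 _ _ _ (by decide), by
        simp [f, marks, Nat.dist, h]⟩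
    · exact ⟨Sum.inr (j, 1), Sum.inr (j, 2), hadj1 _ _ _ (by decide), by
        simp [f, marks, Nat.dist, h]⟩
    · exact ⟨Sum.inl 0, Sum.inr (j, 1), hadj0 _, by simp [f, marks, Nat.dist, h]⟩
    · exact ⟨Sum.inr (j, 0), Sum.inr (j, 2), hadj1 _ _ _ (by decide), by
        simp only [f, marks, Sum.elim_inr, Matrix.cons_val_zero, Matrix.cons_val, Nat.dist, h]
        omega⟩
    · exact ⟨Sum.inl 0, Sum.inr (j, 2), hadj0 _, by simp [f, marks, Nat.dist, h]⟩
  refine graceful_of_cover 4 1 L.length (le_refl _) f ?_ hc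
  intro v
  rcases v with c | p
  · exact Nat.zero_le _
  · have h1 := ((of_cover (B 4 1 L.length) f hc).1 _ _ (hadj0 p)).2
    have h2 : Nat.dist (f (Sum.inl 0)) (f (Sum.inr p)) = f (Sum.inr p) := by
      simp [f, Nat.dist]
    rw [h2] at h1
    exact h1

end Pool.Agent.PDF4
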