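import Pool.Agent.PDF4.Basic

set_option autoImplicit false
set_option linter.unusedVariables false
set_option linter.style.longLine false

/-! Perfect difference families with `6 h + 5` blocks of size `4` (generated). -/

namespace Pool.Agent.PDF4.R5

def f0 (h i : ℕ) : ℕ × ℕ × ℕ := (4 * h + 3 - i, 7 * h + 3 * i + 9, 24 * h + 19 - i)

def f1 (h i : ℕ) : ℕ × ℕ × ℕ := (7 * h + 5 - i, 7 * h + 3 * i + 10, 20 * h + 15 - i)

def f2 (h i : ℕ) : ℕ × ℕ × ℕ := (3 * i + 5, 14 * h + 11 - i, 19 * h + 12 - i)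

def f3 (h i : ℕ) : ℕ × ℕ × ℕ := (7 * h + 3 * i + 11, 17 * h + 12 - i, 6 * h + 3 - i)

def f4 (h i : ℕ) : ℕ × ℕ × ℕ := (3 * i + 6, 11 * h + 7 - i, 18 * h + 13 - i)

def f5 (h i : ℕ) : ℕ × ℕ × ℕ := (3 * i + 4, 21 * h + 16 - i, 5 * h + 4 - i)

def sp (h : ℕ) : List (ℕ × ℕ × ℕ) :=
  [(6 * h + 6, 10 * h + 7, 19 * h + 16),
   (3, 23 * h + 17, 6 * h + 5),
   (3 * h + 1, 2, 26 * h + 21),
   (3 * h, 10 * h + 9, 20 * h + 16),
   (10 * h + 8, 7 * h + 7, 19 * h + 15),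
   (1, 19 * h + 13, 14 * h + 13),
   (3 * h + 4, 11 * h + 10, 13 * h + 10),
   (3 * h + 2, 20 * h + 17, 11 * h + 8),
   (7 * h + 8, 6 * h + 4, 11 * h + 9),
   (4 * h + 4, 17 * h + 14, 14 * h + 12),
   (10 * h + 6, 11 * h + 11, 13 * h + 11),
   (4 * h + 5, 23 * h + 18, 7 * h + 6)]

def L (h : ℕ) : List (ℕ × ℕ × ℕ) :=
  (List.range (h - 1)).map (f0 h) ++ ((List.range (h - 1)).map (f1 h) ++ ((List.range (h - 1)).map (f2 h) ++ ((List.range (h - 1)).map (f3 h) ++ ((List.range (h - 2)).map (f4 h) ++ ((List.range (h - 1)).map (f5 h) ++ (sp h))))))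

theorem len (h : ℕ) (hh : 4 ≤ h) : (L h).length = 6 * h + 5 := by
  simp only [L, sp, List.length_append, List.length_map, List.length_range, List.length_cons, List.length_nil]
  omega

theorem mf0 (h i : ℕ) (hi : i < h - 1) : f0 h i ∈ L h :=
  List.mem_append_left _ (List.mem_map.mpr ⟨i, List.mem_range.mpr hi, rfl⟩)

theorem mf1 (h i : ℕ) (hi : i < h - 1) : f1 h i ∈ L h :=
  List.mem_append_right _ (List.mem_append_left _ (List.mem_map.mpr ⟨i, List.mem_range.mpr hi, rfl⟩))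

theorem mf2 (h i : ℕ) (hi : i < h - 1) : f2 h i ∈ L h :=
  List.mem_append_right _ (List.mem_append_right _ (List.mem_append_left _ (List.mem_map.mpr ⟨i, List.mem_range.mpr hi, rfl⟩)))

theorem mf3 (h i : ℕ) (hi : i < h - 1) : f3 h i ∈ L h :=
  List.mem_append_right _ (List.mem_append_right _ (List.mem_append_right _ (List.mem_append_left _ (List.mem_map.mpr ⟨i, List.mem_range.mpr hi, rfl⟩))))

theorem mf4 (h i : ℕ) (hi : i < h - 2) : f4 h i ∈ L h :=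
  List.mem_append_right _ (List.mem_append_right _ (List.mem_append_right _ (List.mem_append_right _ (List.mem_append_left _ (List.mem_map.mpr ⟨i, List.mem_range.mpr hi, rfl⟩)))))

theorem mf5 (h i : ℕ) (hi : i < h - 1) : f5 h i ∈ L h :=
  List.mem_append_right _ (List.mem_append_right _ (List.mem_append_right _ (List.mem_append_right _ (List.mem_append_right _ (List.mem_append_left _ (List.mem_map.mpr ⟨i, List.mem_range.mpr hi, rfl⟩))))))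

theorem ms0 (h : ℕ) : (6 * h + 6, 10 * h + 7, 19 * h + 16) ∈ L h :=
  List.mem_append_right _ (List.mem_append_right _ (List.mem_append_right _ (List.mem_append_right _ (List.mem_append_right _ (List.mem_append_right _ (List.mem_cons_self))))))

theorem ms1 (h : ℕ) : (3, 23 * h + 17, 6 * h + 5) ∈ L h :=
  List.mem_append_right _ (List.mem_append_right _ (List.mem_append_right _ (List.mem_append_right _ (List.mem_append_right _ (List.mem_append_right _ (List.mem_cons_of_mem _ (List.mem_cons_self)))))))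

theorem ms2 (h : ℕ) : (3 * h + 1, 2, 26 * h + 21) ∈ L h :=
  List.mem_append_right _ (List.mem_append_right _ (List.mem_append_right _ (List.mem_append_right _ (List.mem_append_right _ (List.mem_append_right _ (List.mem_cons_of_mem _ (List.mem_cons_of_mem _ (List.mem_cons_self))))))))

theorem ms3 (h : ℕ) : (3 * h, 10 * h + 9, 20 * h + 16) ∈ L h :=
  List.mem_append_right _ (List.mem_append_right _ (List.mem_append_right _ (List.mem_append_right _ (List.mem_append_right _ (List.mem_append_right _ (List.mem_cons_of_mem _ (List.mem_cons_of_mem _ (List.mem_cons_of_mem _ (List.mem_cons_self)))))))))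

theorem ms4 (h : ℕ) : (10 * h + 8, 7 * h + 7, 19 * h + 15) ∈ L h :=
  List.mem_append_right _ (List.mem_append_right _ (List.mem_append_right _ (List.mem_append_right _ (List.mem_append_right _ (List.mem_append_right _ (List.mem_cons_of_mem _ (List.mem_cons_of_mem _ (List.mem_cons_of_mem _ (List.mem_cons_of_mem _ (List.mem_cons_self))))))))))

theorem ms5 (h : ℕ) : (1, 19 * h + 13, 14 * h + 13) ∈ L h :=
  List.mem_append_right _ (List.mem_append_right _ (List.mem_append_right _ (List.mem_append_right _ (List.mem_append_right _ (List.mem_append_right _ (List.mem_cons_of_mem _ (List.mem_cons_of_mem _ (List.mem_cons_of_mem _ (List.mem_cons_of_mem _ (List.mem_cons_of_mem _ (List.mem_cons_self)))))))))))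

theorem ms6 (h : ℕ) : (3 * h + 4, 11 * h + 10, 13 * h + 10) ∈ L h :=
  List.mem_append_right _ (List.mem_append_right _ (List.mem_append_right _ (List.mem_append_right _ (List.mem_append_right _ (List.mem_append_right _ (List.mem_cons_of_mem _ (List.mem_cons_of_mem _ (List.mem_cons_of_mem _ (List.mem_cons_of_mem _ (List.mem_cons_of_mem _ (List.mem_cons_of_mem _ (List.mem_cons_self))))))))))))

theorem ms7 (h : ℕ) : (3 * h + 2, 20 * h + 17, 11 * h + 8) ∈ L h :=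
  List.mem_append_right _ (List.mem_append_right _ (List.mem_append_right _ (List.mem_append_right _ (List.mem_append_right _ (List.mem_append_right _ (List.mem_cons_of_mem _ (List.mem_cons_of_mem _ (List.mem_cons_of_mem _ (List.mem_cons_of_mem _ (List.mem_cons_of_mem _ (List.mem_cons_of_mem _ (List.mem_cons_of_mem _ (List.mem_cons_self)))))))))))))

theorem ms8 (h : ℕ) : (7 * h + 8, 6 * h + 4, 11 * h + 9) ∈ L h :=
  List.mem_append_right _ (List.mem_append_right _ (List.mem_append_right _ (List.mem_append_right _ (List.mem_append_right _ (List.mem_append_right _ (List.mem_cons_of_mem _ (List.mem_cons_of_mem _ (List.mem_cons_of_mem _ (List.mem_cons_of_mem _ (List.mem_cons_of_mem _ (List.mem_cons_of_mem _ (List.mem_cons_of_mem _ (List.mem_cons_of_mem _ (List.mem_cons_self))))))))))))))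

theorem ms9 (h : ℕ) : (4 * h + 4, 17 * h + 14, 14 * h + 12) ∈ L h :=
  List.mem_append_right _ (List.mem_append_right _ (List.mem_append_right _ (List.mem_append_right _ (List.mem_append_right _ (List.mem_append_right _ (List.mem_cons_of_mem _ (List.mem_cons_of_mem _ (List.mem_cons_of_mem _ (List.mem_cons_of_mem _ (List.mem_cons_of_mem _ (List.mem_cons_of_mem _ (List.mem_cons_of_mem _ (List.mem_cons_of_mem _ (List.mem_cons_of_mem _ (List.mem_cons_self)))))))))))))))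

theorem ms10 (h : ℕ) : (10 * h + 6, 11 * h + 11, 13 * h + 11) ∈ L h :=
  List.mem_append_right _ (List.mem_append_right _ (List.mem_append_right _ (List.mem_append_right _ (List.mem_append_right _ (List.mem_append_right _ (List.mem_cons_of_mem _ (List.mem_cons_of_mem _ (List.mem_cons_of_mem _ (List.mem_cons_of_mem _ (List.mem_cons_of_mem _ (List.mem_cons_of_mem _ (List.mem_cons_of_mem _ (List.mem_cons_of_mem _ (List.mem_cons_of_mem _ (List.mem_cons_of_mem _ (List.mem_cons_self))))))))))))))))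

theorem ms11 (h : ℕ) : (4 * h + 5, 23 * h + 18, 7 * h + 6) ∈ L h :=
  List.mem_append_right _ (List.mem_append_right _ (List.mem_append_right _ (List.mem_append_right _ (List.mem_append_right _ (List.mem_append_right _ (List.mem_cons_of_mem _ (List.mem_cons_of_mem _ (List.mem_cons_of_mem _ (List.mem_cons_of_mem _ (List.mem_cons_of_mem _ (List.mem_cons_of_mem _ (List.mem_cons_of_mem _ (List.mem_cons_of_mem _ (List.mem_cons_of_mem _ (List.mem_cons_of_mem _ (List.mem_cons_of_mem _ (List.mem_cons_self)))))))))))))))))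

theorem t0_0 (h n i : ℕ) (hh : 4 ≤ h) (hi : i < h - 1) (hn : n = 4 * h + 3 - i) : Cov (L h) n :=
  ⟨_, mf0 h i hi, Or.inl (by simp only [f0]; omega)⟩

theorem t0_1 (h n i : ℕ) (hh : 4 ≤ h) (hi : i < h - 1) (hn : n = 7 * h + 3 * i + 9) : Cov (L h) n :=
  ⟨_, mf0 h i hi, Or.inr (Or.inl (by simp only [f0]; omega))⟩

theorem t0_2 (h n i : ℕ) (hh : 4 ≤ h) (hi : i < h - 1) (hn : n = 24 * h + 19 - i) : Cov (L h) n :=
  ⟨_, mf0 h i hi, Or.inr (Or.inr (Or.inl (by simp only [f0]; omega)))⟩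

theorem t0_3 (h n i : ℕ) (hh : 4 ≤ h) (hi : i < h - 1) (hn : n = 11 * h + 2 * i + 12) : Cov (L h) n :=
  ⟨_, mf0 h i hi, Or.inr (Or.inr (Or.inr (Or.inl (by simp only [f0]; omega))))⟩

theorem t0_4 (h n i : ℕ) (hh : 4 ≤ h) (hi : i < h - 1) (hn : n = 31 * h + 2 * i + 28) : Cov (L h) n :=
  ⟨_, mf0 h i hi, Or.inr (Or.inr (Or.inr (Or.inr (Or.inl (by simp only [f0]; omega)))))⟩

theorem t0_5 (h n i : ℕ) (hh : 4 ≤ h) (hi : i < h - 1) (hn : n = 35 * h + i + 31) : Cov (L h) n :=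
  ⟨_, mf0 h i hi, Or.inr (Or.inr (Or.inr (Or.inr (Or.inr (by simp only [f0]; omega)))))⟩

theorem t1_0 (h n i : ℕ) (hh : 4 ≤ h) (hi : i < h - 1) (hn : n = 7 * h + 5 - i) : Cov (L h) n :=
  ⟨_, mf1 h i hi, Or.inl (by simp only [f1]; omega)⟩

theorem t1_1 (h n i : ℕ) (hh : 4 ≤ h) (hi : i < h - 1) (hn : n = 7 * h + 3 * i + 10) : Cov (L h) n :=
  ⟨_, mf1 h i hi, Or.inr (Or.inl (by simp only [f1]; omega))⟩

theorem t1_2 (h n i : ℕ) (hh : 4 ≤ h) (hi : i < h - 1) (hn : n = 20 * h + 15 - i) : Cov (L h) n :=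
  ⟨_, mf1 h i hi, Or.inr (Or.inr (Or.inl (by simp only [f1]; omega)))⟩

theorem t1_3 (h n i : ℕ) (hh : 4 ≤ h) (hi : i < h - 1) (hn : n = 14 * h + 2 * i + 15) : Cov (L h) n :=
  ⟨_, mf1 h i hi, Or.inr (Or.inr (Or.inr (Or.inl (by simp only [f1]; omega))))⟩

theorem t1_4 (h n i : ℕ) (hh : 4 ≤ h) (hi : i < h - 1) (hn : n = 27 * h + 2 * i + 25) : Cov (L h) n :=
  ⟨_, mf1 h i hi, Or.inr (Or.inr (Or.inr (Or.inr (Or.inl (by simp only [f1]; omega)))))⟩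

theorem t1_5 (h n i : ℕ) (hh : 4 ≤ h) (hi : i < h - 1) (hn : n = 34 * h + i + 30) : Cov (L h) n :=
  ⟨_, mf1 h i hi, Or.inr (Or.inr (Or.inr (Or.inr (Or.inr (by simp only [f1]; omega)))))⟩

theorem t2_0 (h n i : ℕ) (hh : 4 ≤ h) (hi : i < h - 1) (hn : n = 3 * i + 5) : Cov (L h) n :=
  ⟨_, mf2 h i hi, Or.inl (by simp only [f2]; omega)⟩

theorem t2_1 (h n i : ℕ) (hh : 4 ≤ h) (hi : i < h - 1) (hn : n = 14 * h + 11 - i) : Cov (L h) n :=
  ⟨_, mf2 h i hi, Or.inr (Or.inl (by simp only [f2]; omega))⟩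

theorem t2_2 (h n i : ℕ) (hh : 4 ≤ h) (hi : i < h - 1) (hn : n = 19 * h + 12 - i) : Cov (L h) n :=
  ⟨_, mf2 h i hi, Or.inr (Or.inr (Or.inl (by simp only [f2]; omega)))⟩

theorem t2_3 (h n i : ℕ) (hh : 4 ≤ h) (hi : i < h - 1) (hn : n = 14 * h + 2 * i + 16) : Cov (L h) n :=
  ⟨_, mf2 h i hi, Or.inr (Or.inr (Or.inr (Or.inl (by simp only [f2]; omega))))⟩

theorem t2_4 (h n i : ℕ) (hh : 4 ≤ h) (hi : i < h - 1) (hn : n = 33 * h + 23 - 2 * i) : Cov (L h) n :=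
  ⟨_, mf2 h i hi, Or.inr (Or.inr (Or.inr (Or.inr (Or.inl (by simp only [f2]; omega)))))⟩

theorem t2_5 (h n i : ℕ) (hh : 4 ≤ h) (hi : i < h - 1) (hn : n = 33 * h + i + 28) : Cov (L h) n :=
  ⟨_, mf2 h i hi, Or.inr (Or.inr (Or.inr (Or.inr (Or.inr (by simp only [f2]; omega)))))⟩

theorem t3_0 (h n i : ℕ) (hh : 4 ≤ h) (hi : i < h - 1) (hn : n = 7 * h + 3 * i + 11) : Cov (L h) n :=
  ⟨_, mf3 h i hi, Or.inl (by simp only [f3]; omega)⟩

theorem t3_1 (h n i : ℕ) (hh : 4 ≤ h) (hi : i < h - 1) (hn : n = 17 * h + 12 - i) : Cov (L h) n :=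
  ⟨_, mf3 h i hi, Or.inr (Or.inl (by simp only [f3]; omega))⟩

theorem t3_2 (h n i : ℕ) (hh : 4 ≤ h) (hi : i < h - 1) (hn : n = 6 * h + 3 - i) : Cov (L h) n :=
  ⟨_, mf3 h i hi, Or.inr (Or.inr (Or.inl (by simp only [f3]; omega)))⟩

theorem t3_3 (h n i : ℕ) (hh : 4 ≤ h) (hi : i < h - 1) (hn : n = 24 * h + 2 * i + 23) : Cov (L h) n :=
  ⟨_, mf3 h i hi, Or.inr (Or.inr (Or.inr (Or.inl (by simp only [f3]; omega))))⟩

theorem t3_4 (h n i : ℕ) (hh : 4 ≤ h) (hi : i < h - 1) (hn : n = 23 * h + 15 - 2 * i) : Cov (L h) n :=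
  ⟨_, mf3 h i hi, Or.inr (Or.inr (Or.inr (Or.inr (Or.inl (by simp only [f3]; omega)))))⟩

theorem t3_5 (h n i : ℕ) (hh : 4 ≤ h) (hi : i < h - 1) (hn : n = 30 * h + i + 26) : Cov (L h) n :=
  ⟨_, mf3 h i hi, Or.inr (Or.inr (Or.inr (Or.inr (Or.inr (by simp only [f3]; omega)))))⟩

theorem t4_0 (h n i : ℕ) (hh : 4 ≤ h) (hi : i < h - 2) (hn : n = 3 * i + 6) : Cov (L h) n :=
  ⟨_, mf4 h i hi, Or.inl (by simp only [f4]; omega)⟩

theorem t4_1 (h n i : ℕ) (hh : 4 ≤ h) (hi : i < h - 2) (hn : n = 11 * h + 7 - i) : Cov (L h) n :=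
  ⟨_, mf4 h i hi, Or.inr (Or.inl (by simp only [f4]; omega))⟩

theorem t4_2 (h n i : ℕ) (hh : 4 ≤ h) (hi : i < h - 2) (hn : n = 18 * h + 13 - i) : Cov (L h) n :=
  ⟨_, mf4 h i hi, Or.inr (Or.inr (Or.inl (by simp only [f4]; omega)))⟩

theorem t4_3 (h n i : ℕ) (hh : 4 ≤ h) (hi : i < h - 2) (hn : n = 11 * h + 2 * i + 13) : Cov (L h) n :=
  ⟨_, mf4 h i hi, Or.inr (Or.inr (Or.inr (Or.inl (by simp only [f4]; omega))))⟩

theorem t4_4 (h n i : ℕ) (hh : 4 ≤ h) (hi : i < h - 2) (hn : n = 29 * h + 20 - 2 * i) : Cov (L h) n :=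
  ⟨_, mf4 h i hi, Or.inr (Or.inr (Or.inr (Or.inr (Or.inl (by simp only [f4]; omega)))))⟩

theorem t4_5 (h n i : ℕ) (hh : 4 ≤ h) (hi : i < h - 2) (hn : n = 29 * h + i + 26) : Cov (L h) n :=
  ⟨_, mf4 h i hi, Or.inr (Or.inr (Or.inr (Or.inr (Or.inr (by simp only [f4]; omega)))))⟩

theorem t5_0 (h n i : ℕ) (hh : 4 ≤ h) (hi : i < h - 1) (hn : n = 3 * i + 4) : Cov (L h) n :=
  ⟨_, mf5 h i hi, Or.inl (by simp only [f5]; omega)⟩

theorem t5_1 (h n i : ℕ) (hh : 4 ≤ h) (hi : i < h - 1) (hn : n = 21 * h + 16 - i) : Cov (L h) n :=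
  ⟨_, mf5 h i hi, Or.inr (Or.inl (by simp only [f5]; omega))⟩

theorem t5_2 (h n i : ℕ) (hh : 4 ≤ h) (hi : i < h - 1) (hn : n = 5 * h + 4 - i) : Cov (L h) n :=
  ⟨_, mf5 h i hi, Or.inr (Or.inr (Or.inl (by simp only [f5]; omega)))⟩

theorem t5_3 (h n i : ℕ) (hh : 4 ≤ h) (hi : i < h - 1) (hn : n = 21 * h + 2 * i + 20) : Cov (L h) n :=
  ⟨_, mf5 h i hi, Or.inr (Or.inr (Or.inr (Or.inl (by simp only [f5]; omega))))⟩

theorem t5_4 (h n i : ℕ) (hh : 4 ≤ h) (hi : i < h - 1) (hn : n = 26 * h + 20 - 2 * i) : Cov (L h) n :=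
  ⟨_, mf5 h i hi, Or.inr (Or.inr (Or.inr (Or.inr (Or.inl (by simp only [f5]; omega)))))⟩

theorem t5_5 (h n i : ℕ) (hh : 4 ≤ h) (hi : i < h - 1) (hn : n = 26 * h + i + 24) : Cov (L h) n :=
  ⟨_, mf5 h i hi, Or.inr (Or.inr (Or.inr (Or.inr (Or.inr (by simp only [f5]; omega)))))⟩

theorem s0_0 (h n : ℕ) (hh : 4 ≤ h) (hn : n = 6 * h + 6) : Cov (L h) n :=
  ⟨_, ms0 h, Or.inl (by dsimp only; omega)⟩

theorem s0_1 (h n : ℕ) (hh : 4 ≤ h) (hn : n = 10 * h + 7) : Cov (L h) n :=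
  ⟨_, ms0 h, Or.inr (Or.inl (by dsimp only; omega))⟩

theorem s0_2 (h n : ℕ) (hh : 4 ≤ h) (hn : n = 19 * h + 16) : Cov (L h) n :=
  ⟨_, ms0 h, Or.inr (Or.inr (Or.inl (by dsimp only; omega)))⟩

theorem s0_3 (h n : ℕ) (hh : 4 ≤ h) (hn : n = 16 * h + 13) : Cov (L h) n :=
  ⟨_, ms0 h, Or.inr (Or.inr (Or.inr (Or.inl (by dsimp only; omega))))⟩

theorem s0_4 (h n : ℕ) (hh : 4 ≤ h) (hn : n = 29 * h + 23) : Cov (L h) n :=
  ⟨_, ms0 h, Or.inr (Or.inr (Or.inr (Or.inr (Or.inl (by dsimp only; omega)))))⟩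

theorem s0_5 (h n : ℕ) (hh : 4 ≤ h) (hn : n = 35 * h + 29) : Cov (L h) n :=
  ⟨_, ms0 h, Or.inr (Or.inr (Or.inr (Or.inr (Or.inr (by dsimp only; omega)))))⟩

theorem s1_0 (h n : ℕ) (hh : 4 ≤ h) (hn : n = 3) : Cov (L h) n :=
  ⟨_, ms1 h, Or.inl (by dsimp only; omega)⟩

theorem s1_1 (h n : ℕ) (hh : 4 ≤ h) (hn : n = 23 * h + 17) : Cov (L h) n :=
  ⟨_, ms1 h, Or.inr (Or.inl (by dsimp only; omega))⟩

theorem s1_2 (h n : ℕ) (hh : 4 ≤ h) (hn : n = 6 * h + 5) : Cov (L h) n :=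
  ⟨_, ms1 h, Or.inr (Or.inr (Or.inl (by dsimp only; omega)))⟩

theorem s1_3 (h n : ℕ) (hh : 4 ≤ h) (hn : n = 23 * h + 20) : Cov (L h) n :=
  ⟨_, ms1 h, Or.inr (Or.inr (Or.inr (Or.inl (by dsimp only; omega))))⟩

theorem s1_4 (h n : ℕ) (hh : 4 ≤ h) (hn : n = 29 * h + 22) : Cov (L h) n :=
  ⟨_, ms1 h, Or.inr (Or.inr (Or.inr (Or.inr (Or.inl (by dsimp only; omega)))))⟩

theorem s1_5 (h n : ℕ) (hh : 4 ≤ h) (hn : n = 29 * h + 25) : Cov (L h) n :=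
  ⟨_, ms1 h, Or.inr (Or.inr (Or.inr (Or.inr (Or.inr (by dsimp only; omega)))))⟩

theorem s2_0 (h n : ℕ) (hh : 4 ≤ h) (hn : n = 3 * h + 1) : Cov (L h) n :=
  ⟨_, ms2 h, Or.inl (by dsimp only; omega)⟩

theorem s2_1 (h n : ℕ) (hh : 4 ≤ h) (hn : n = 2) : Cov (L h) n :=
  ⟨_, ms2 h, Or.inr (Or.inl (by dsimp only; omega))⟩

theorem s2_2 (h n : ℕ) (hh : 4 ≤ h) (hn : n = 26 * h + 21) : Cov (L h) n :=
  ⟨_, ms2 h, Or.inr (Or.inr (Or.inl (by dsimp only; omega)))⟩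

theorem s2_3 (h n : ℕ) (hh : 4 ≤ h) (hn : n = 3 * h + 3) : Cov (L h) n :=
  ⟨_, ms2 h, Or.inr (Or.inr (Or.inr (Or.inl (by dsimp only; omega))))⟩

theorem s2_4 (h n : ℕ) (hh : 4 ≤ h) (hn : n = 26 * h + 23) : Cov (L h) n :=
  ⟨_, ms2 h, Or.inr (Or.inr (Or.inr (Or.inr (Or.inl (by dsimp only; omega)))))⟩

theorem s2_5 (h n : ℕ) (hh : 4 ≤ h) (hn : n = 29 * h + 24) : Cov (L h) n :=
  ⟨_, ms2 h, Or.inr (Or.inr (Or.inr (Or.inr (Or.inr (by dsimp only; omega)))))⟩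

theorem s3_0 (h n : ℕ) (hh : 4 ≤ h) (hn : n = 3 * h) : Cov (L h) n :=
  ⟨_, ms3 h, Or.inl (by dsimp only; omega)⟩

theorem s3_1 (h n : ℕ) (hh : 4 ≤ h) (hn : n = 10 * h + 9) : Cov (L h) n :=
  ⟨_, ms3 h, Or.inr (Or.inl (by dsimp only; omega))⟩

theorem s3_2 (h n : ℕ) (hh : 4 ≤ h) (hn : n = 20 * h + 16) : Cov (L h) n :=
  ⟨_, ms3 h, Or.inr (Or.inr (Or.inl (by dsimp only; omega)))⟩

theorem s3_3 (h n : ℕ) (hh : 4 ≤ h) (hn : n = 13 * h + 9) : Cov (L h) n :=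
  ⟨_, ms3 h, Or.inr (Or.inr (Or.inr (Or.inl (by dsimp only; omega))))⟩

theorem s3_4 (h n : ℕ) (hh : 4 ≤ h) (hn : n = 30 * h + 25) : Cov (L h) n :=
  ⟨_, ms3 h, Or.inr (Or.inr (Or.inr (Or.inr (Or.inl (by dsimp only; omega)))))⟩

theorem s3_5 (h n : ℕ) (hh : 4 ≤ h) (hn : n = 33 * h + 25) : Cov (L h) n :=
  ⟨_, ms3 h, Or.inr (Or.inr (Or.inr (Or.inr (Or.inr (by dsimp only; omega)))))⟩

theorem s4_0 (h n : ℕ) (hh : 4 ≤ h) (hn : n = 10 * h + 8) : Cov (L h) n :=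
  ⟨_, ms4 h, Or.inl (by dsimp only; omega)⟩

theorem s4_1 (h n : ℕ) (hh : 4 ≤ h) (hn : n = 7 * h + 7) : Cov (L h) n :=
  ⟨_, ms4 h, Or.inr (Or.inl (by dsimp only; omega))⟩

theorem s4_2 (h n : ℕ) (hh : 4 ≤ h) (hn : n = 19 * h + 15) : Cov (L h) n :=
  ⟨_, ms4 h, Or.inr (Or.inr (Or.inl (by dsimp only; omega)))⟩

theorem s4_3 (h n : ℕ) (hh : 4 ≤ h) (hn : n = 17 * h + 15) : Cov (L h) n :=
  ⟨_, ms4 h, Or.inr (Or.inr (Or.inr (Or.inl (by dsimp only; omega))))⟩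

theorem s4_4 (h n : ℕ) (hh : 4 ≤ h) (hn : n = 26 * h + 22) : Cov (L h) n :=
  ⟨_, ms4 h, Or.inr (Or.inr (Or.inr (Or.inr (Or.inl (by dsimp only; omega)))))⟩

theorem s4_5 (h n : ℕ) (hh : 4 ≤ h) (hn : n = 36 * h + 30) : Cov (L h) n :=
  ⟨_, ms4 h, Or.inr (Or.inr (Or.inr (Or.inr (Or.inr (by dsimp only; omega)))))⟩

theorem s5_0 (h n : ℕ) (hh : 4 ≤ h) (hn : n = 1) : Cov (L h) n :=
  ⟨_, ms5 h, Or.inl (by dsimp only; omega)⟩

theorem s5_1 (h n : ℕ) (hh : 4 ≤ h) (hn : n = 19 * h + 13) : Cov (L h) n :=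
  ⟨_, ms5 h, Or.inr (Or.inl (by dsimp only; omega))⟩

theorem s5_2 (h n : ℕ) (hh : 4 ≤ h) (hn : n = 14 * h + 13) : Cov (L h) n :=
  ⟨_, ms5 h, Or.inr (Or.inr (Or.inl (by dsimp only; omega)))⟩

theorem s5_3 (h n : ℕ) (hh : 4 ≤ h) (hn : n = 19 * h + 14) : Cov (L h) n :=
  ⟨_, ms5 h, Or.inr (Or.inr (Or.inr (Or.inl (by dsimp only; omega))))⟩

theorem s5_4 (h n : ℕ) (hh : 4 ≤ h) (hn : n = 33 * h + 26) : Cov (L h) n :=
  ⟨_, ms5 h, Or.inr (Or.inr (Or.inr (Or.inr (Or.inl (by dsimp only; omega)))))⟩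

theorem s5_5 (h n : ℕ) (hh : 4 ≤ h) (hn : n = 33 * h + 27) : Cov (L h) n :=
  ⟨_, ms5 h, Or.inr (Or.inr (Or.inr (Or.inr (Or.inr (by dsimp only; omega)))))⟩

theorem s6_0 (h n : ℕ) (hh : 4 ≤ h) (hn : n = 3 * h + 4) : Cov (L h) n :=
  ⟨_, ms6 h, Or.inl (by dsimp only; omega)⟩

theorem s6_1 (h n : ℕ) (hh : 4 ≤ h) (hn : n = 11 * h + 10) : Cov (L h) n :=
  ⟨_, ms6 h, Or.inr (Or.inl (by dsimp only; omega))⟩

theorem s6_2 (h n : ℕ) (hh : 4 ≤ h) (hn : n = 13 * h + 10) : Cov (L h) n :=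
  ⟨_, ms6 h, Or.inr (Or.inr (Or.inl (by dsimp only; omega)))⟩

theorem s6_3 (h n : ℕ) (hh : 4 ≤ h) (hn : n = 14 * h + 14) : Cov (L h) n :=
  ⟨_, ms6 h, Or.inr (Or.inr (Or.inr (Or.inl (by dsimp only; omega))))⟩

theorem s6_4 (h n : ℕ) (hh : 4 ≤ h) (hn : n = 24 * h + 20) : Cov (L h) n :=
  ⟨_, ms6 h, Or.inr (Or.inr (Or.inr (Or.inr (Or.inl (by dsimp only; omega)))))⟩

theorem s6_5 (h n : ℕ) (hh : 4 ≤ h) (hn : n = 27 * h + 24) : Cov (L h) n :=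
  ⟨_, ms6 h, Or.inr (Or.inr (Or.inr (Or.inr (Or.inr (by dsimp only; omega)))))⟩

theorem s7_0 (h n : ℕ) (hh : 4 ≤ h) (hn : n = 3 * h + 2) : Cov (L h) n :=
  ⟨_, ms7 h, Or.inl (by dsimp only; omega)⟩

theorem s7_1 (h n : ℕ) (hh : 4 ≤ h) (hn : n = 20 * h + 17) : Cov (L h) n :=
  ⟨_, ms7 h, Or.inr (Or.inl (by dsimp only; omega))⟩

theorem s7_2 (h n : ℕ) (hh : 4 ≤ h) (hn : n = 11 * h + 8) : Cov (L h) n :=
  ⟨_, ms7 h, Or.inr (Or.inr (Or.inl (by dsimp only; omega)))⟩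

theorem s7_3 (h n : ℕ) (hh : 4 ≤ h) (hn : n = 23 * h + 19) : Cov (L h) n :=
  ⟨_, ms7 h, Or.inr (Or.inr (Or.inr (Or.inl (by dsimp only; omega))))⟩

theorem s7_4 (h n : ℕ) (hh : 4 ≤ h) (hn : n = 31 * h + 25) : Cov (L h) n :=
  ⟨_, ms7 h, Or.inr (Or.inr (Or.inr (Or.inr (Or.inl (by dsimp only; omega)))))⟩

theorem s7_5 (h n : ℕ) (hh : 4 ≤ h) (hn : n = 34 * h + 27) : Cov (L h) n :=
  ⟨_, ms7 h, Or.inr (Or.inr (Or.inr (Or.inr (Or.inr (by dsimp only; omega)))))⟩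

theorem s8_0 (h n : ℕ) (hh : 4 ≤ h) (hn : n = 7 * h + 8) : Cov (L h) n :=
  ⟨_, ms8 h, Or.inl (by dsimp only; omega)⟩

theorem s8_1 (h n : ℕ) (hh : 4 ≤ h) (hn : n = 6 * h + 4) : Cov (L h) n :=
  ⟨_, ms8 h, Or.inr (Or.inl (by dsimp only; omega))⟩

theorem s8_2 (h n : ℕ) (hh : 4 ≤ h) (hn : n = 11 * h + 9) : Cov (L h) n :=
  ⟨_, ms8 h, Or.inr (Or.inr (Or.inl (by dsimp only; omega)))⟩

theorem s8_3 (h n : ℕ) (hh : 4 ≤ h) (hn : n = 13 * h + 12) : Cov (L h) n :=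
  ⟨_, ms8 h, Or.inr (Or.inr (Or.inr (Or.inl (by dsimp only; omega))))⟩

theorem s8_4 (h n : ℕ) (hh : 4 ≤ h) (hn : n = 17 * h + 13) : Cov (L h) n :=
  ⟨_, ms8 h, Or.inr (Or.inr (Or.inr (Or.inr (Or.inl (by dsimp only; omega)))))⟩

theorem s8_5 (h n : ℕ) (hh : 4 ≤ h) (hn : n = 24 * h + 21) : Cov (L h) n :=
  ⟨_, ms8 h, Or.inr (Or.inr (Or.inr (Or.inr (Or.inr (by dsimp only; omega)))))⟩

theorem s9_0 (h n : ℕ) (hh : 4 ≤ h) (hn : n = 4 * h + 4) : Cov (L h) n :=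
  ⟨_, ms9 h, Or.inl (by dsimp only; omega)⟩

theorem s9_1 (h n : ℕ) (hh : 4 ≤ h) (hn : n = 17 * h + 14) : Cov (L h) n :=
  ⟨_, ms9 h, Or.inr (Or.inl (by dsimp only; omega))⟩

theorem s9_2 (h n : ℕ) (hh : 4 ≤ h) (hn : n = 14 * h + 12) : Cov (L h) n :=
  ⟨_, ms9 h, Or.inr (Or.inr (Or.inl (by dsimp only; omega)))⟩

theorem s9_3 (h n : ℕ) (hh : 4 ≤ h) (hn : n = 21 * h + 18) : Cov (L h) n :=
  ⟨_, ms9 h, Or.inr (Or.inr (Or.inr (Or.inl (by dsimp only; omega))))⟩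

theorem s9_4 (h n : ℕ) (hh : 4 ≤ h) (hn : n = 31 * h + 26) : Cov (L h) n :=
  ⟨_, ms9 h, Or.inr (Or.inr (Or.inr (Or.inr (Or.inl (by dsimp only; omega)))))⟩

theorem s9_5 (h n : ℕ) (hh : 4 ≤ h) (hn : n = 35 * h + 30) : Cov (L h) n :=
  ⟨_, ms9 h, Or.inr (Or.inr (Or.inr (Or.inr (Or.inr (by dsimp only; omega)))))⟩

theorem s10_0 (h n : ℕ) (hh : 4 ≤ h) (hn : n = 10 * h + 6) : Cov (L h) n :=
  ⟨_, ms10 h, Or.inl (by dsimp only; omega)⟩

theorem s10_1 (h n : ℕ) (hh : 4 ≤ h) (hn : n = 11 * h + 11) : Cov (L h) n :=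
  ⟨_, ms10 h, Or.inr (Or.inl (by dsimp only; omega))⟩

theorem s10_2 (h n : ℕ) (hh : 4 ≤ h) (hn : n = 13 * h + 11) : Cov (L h) n :=
  ⟨_, ms10 h, Or.inr (Or.inr (Or.inl (by dsimp only; omega)))⟩

theorem s10_3 (h n : ℕ) (hh : 4 ≤ h) (hn : n = 21 * h + 17) : Cov (L h) n :=
  ⟨_, ms10 h, Or.inr (Or.inr (Or.inr (Or.inl (by dsimp only; omega))))⟩

theorem s10_4 (h n : ℕ) (hh : 4 ≤ h) (hn : n = 24 * h + 22) : Cov (L h) n :=
  ⟨_, ms10 h, Or.inr (Or.inr (Or.inr (Or.inr (Or.inl (by dsimp only; omega)))))⟩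

theorem s10_5 (h n : ℕ) (hh : 4 ≤ h) (hn : n = 34 * h + 28) : Cov (L h) n :=
  ⟨_, ms10 h, Or.inr (Or.inr (Or.inr (Or.inr (Or.inr (by dsimp only; omega)))))⟩

theorem s11_0 (h n : ℕ) (hh : 4 ≤ h) (hn : n = 4 * h + 5) : Cov (L h) n :=
  ⟨_, ms11 h, Or.inl (by dsimp only; omega)⟩

theorem s11_1 (h n : ℕ) (hh : 4 ≤ h) (hn : n = 23 * h + 18) : Cov (L h) n :=
  ⟨_, ms11 h, Or.inr (Or.inl (by dsimp only; omega))⟩

theorem s11_2 (h n : ℕ) (hh : 4 ≤ h) (hn : n = 7 * h + 6) : Cov (L h) n :=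
  ⟨_, ms11 h, Or.inr (Or.inr (Or.inl (by dsimp only; omega)))⟩

theorem s11_3 (h n : ℕ) (hh : 4 ≤ h) (hn : n = 27 * h + 23) : Cov (L h) n :=
  ⟨_, ms11 h, Or.inr (Or.inr (Or.inr (Or.inl (by dsimp only; omega))))⟩

theorem s11_4 (h n : ℕ) (hh : 4 ≤ h) (hn : n = 30 * h + 24) : Cov (L h) n :=
  ⟨_, ms11 h, Or.inr (Or.inr (Or.inr (Or.inr (Or.inl (by dsimp only; omega)))))⟩

theorem s11_5 (h n : ℕ) (hh : 4 ≤ h) (hn : n = 34 * h + 29) : Cov (L h) n :=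
  ⟨_, ms11 h, Or.inr (Or.inr (Or.inr (Or.inr (Or.inr (by dsimp only; omega)))))⟩

theorem w0 (h n : ℕ) (hh : 4 ≤ h) (ha : 1 ≤ n) (hb : n ≤ 5) : Cov (L h) n := by
  have hc : n = 1 ∨ n = 2 ∨ n = 3 ∨ n = 4 ∨ n = 5 := by omega
  rcases hc with hc | hc | hc | hc | hc
  · exact s5_0 h n hh hc
  · exact s2_1 h n hh hc
  · exact s1_0 h n hh hc
  · exact t5_0 h n ((n - (4)) / 3) hh (by omega) (by omega)
  · exact t2_0 h n ((n - (5)) / 3) hh (by omega) (by omega)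

theorem g0 (h n : ℕ) (hh : 4 ≤ h) (ha : 6 ≤ n) (hb : n + 3 ≤ 3 * h) : Cov (L h) n := by
  by_cases hp2_0 : (n - (5)) % 3 = 0
  · exact t2_0 h n ((n - (5)) / 3) hh (by omega) (by omega)
  by_cases hp4_0 : (n - (6)) % 3 = 0
  · exact t4_0 h n ((n - (6)) / 3) hh (by omega) (by omega)
  exact t5_0 h n ((n - (4)) / 3) hh (by omega) (by omega)

theorem w3 (h n : ℕ) (hh : 4 ≤ h) (ha : 3 * h ≤ n + 2) (hb : n ≤ 3 * h + 4) : Cov (L h) n := by
  have hc : n + 2 = 3 * h ∨ n + 1 = 3 * h ∨ n = 3 * h ∨ n = 3 * h + 1 ∨ n = 3 * h + 2 ∨ n = 3 * h + 3 ∨ n = 3 * h + 4 := by omega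
  rcases hc with hc | hc | hc | hc | hc | hc | hc
  · exact t5_0 h n ((n - (4)) / 3) hh (by omega) (by omega)
  · exact t2_0 h n ((n - (5)) / 3) hh (by omega) (by omega)
  · exact s3_0 h n hh hc
  · exact s2_0 h n hh hc
  · exact s7_0 h n hh hc
  · exact s2_3 h n hh hc
  · exact s6_0 h n hh hc

theorem g3 (h n : ℕ) (hh : 4 ≤ h) (ha : 3 * h + 5 ≤ n) (hb : n ≤ 4 * h + 3) : Cov (L h) n := by
  exact t0_0 h n (4 * h + 3 - n) hh (by omega) (by omega)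

theorem w4 (h n : ℕ) (hh : 4 ≤ h) (ha : 4 * h + 4 ≤ n) (hb : n ≤ 4 * h + 5) : Cov (L h) n := by
  have hc : n = 4 * h + 4 ∨ n = 4 * h + 5 := by omega
  rcases hc with hc | hc
  · exact s9_0 h n hh hc
  · exact s11_0 h n hh hc

theorem g4 (h n : ℕ) (hh : 4 ≤ h) (ha : 4 * h + 6 ≤ n) (hb : n ≤ 5 * h + 4) : Cov (L h) n := by
  exact t5_2 h n (5 * h + 4 - n) hh (by omega) (by omega)

theorem g5 (h n : ℕ) (hh : 4 ≤ h) (ha : 5 * h + 5 ≤ n) (hb : n ≤ 6 * h + 3) : Cov (L h) n := by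
  exact t3_2 h n (6 * h + 3 - n) hh (by omega) (by omega)

theorem w6 (h n : ℕ) (hh : 4 ≤ h) (ha : 6 * h + 4 ≤ n) (hb : n ≤ 6 * h + 6) : Cov (L h) n := by
  have hc : n = 6 * h + 4 ∨ n = 6 * h + 5 ∨ n = 6 * h + 6 := by omega
  rcases hc with hc | hc | hc
  · exact s8_1 h n hh hc
  · exact s1_2 h n hh hc
  · exact s0_0 h n hh hc

theorem g6 (h n : ℕ) (hh : 4 ≤ h) (ha : 6 * h + 7 ≤ n) (hb : n ≤ 7 * h + 5) : Cov (L h) n := by
  exact t1_0 h n (7 * h + 5 - n) hh (by omega) (by omega)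

theorem w7 (h n : ℕ) (hh : 4 ≤ h) (ha : 7 * h + 6 ≤ n) (hb : n ≤ 7 * h + 10) : Cov (L h) n := by
  have hc : n = 7 * h + 6 ∨ n = 7 * h + 7 ∨ n = 7 * h + 8 ∨ n = 7 * h + 9 ∨ n = 7 * h + 10 := by omega
  rcases hc with hc | hc | hc | hc | hc
  · exact s11_2 h n hh hc
  · exact s4_1 h n hh hc
  · exact s8_0 h n hh hc
  · exact t0_1 h n ((n - (7 * h + 9)) / 3) hh (by omega) (by omega)
  · exact t1_1 h n ((n - (7 * h + 10)) / 3) hh (by omega) (by omega)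

theorem g7 (h n : ℕ) (hh : 4 ≤ h) (ha : 7 * h + 11 ≤ n) (hb : n ≤ 10 * h + 3) : Cov (L h) n := by
  by_cases hp0_1 : (n - (7 * h + 9)) % 3 = 0
  · exact t0_1 h n ((n - (7 * h + 9)) / 3) hh (by omega) (by omega)
  by_cases hp1_1 : (n - (7 * h + 10)) % 3 = 0
  · exact t1_1 h n ((n - (7 * h + 10)) / 3) hh (by omega) (by omega)
  exact t3_0 h n ((n - (7 * h + 11)) / 3) hh (by omega) (by omega)

theorem w10 (h n : ℕ) (hh : 4 ≤ h) (ha : 10 * h + 4 ≤ n) (hb : n ≤ 10 * h + 9) : Cov (L h) n := by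
  have hc : n = 10 * h + 4 ∨ n = 10 * h + 5 ∨ n = 10 * h + 6 ∨ n = 10 * h + 7 ∨ n = 10 * h + 8 ∨ n = 10 * h + 9 := by omega
  rcases hc with hc | hc | hc | hc | hc | hc
  · exact t1_1 h n ((n - (7 * h + 10)) / 3) hh (by omega) (by omega)
  · exact t3_0 h n ((n - (7 * h + 11)) / 3) hh (by omega) (by omega)
  · exact s10_0 h n hh hc
  · exact s0_1 h n hh hc
  · exact s4_0 h n hh hc
  · exact s3_1 h n hh hc

theorem g10 (h n : ℕ) (hh : 4 ≤ h) (ha : 10 * h + 10 ≤ n) (hb : n ≤ 11 * h + 7) : Cov (L h) n := by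
  exact t4_1 h n (11 * h + 7 - n) hh (by omega) (by omega)

theorem w11 (h n : ℕ) (hh : 4 ≤ h) (ha : 11 * h + 8 ≤ n) (hb : n ≤ 11 * h + 12) : Cov (L h) n := by
  have hc : n = 11 * h + 8 ∨ n = 11 * h + 9 ∨ n = 11 * h + 10 ∨ n = 11 * h + 11 ∨ n = 11 * h + 12 := by omega
  rcases hc with hc | hc | hc | hc | hc
  · exact s7_2 h n hh hc
  · exact s8_2 h n hh hc
  · exact s6_1 h n hh hc
  · exact s10_1 h n hh hc
  · exact t0_3 h n ((n - (11 * h + 12)) / 2) hh (by omega) (by omega)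

theorem g11 (h n : ℕ) (hh : 4 ≤ h) (ha : 11 * h + 13 ≤ n) (hb : n ≤ 13 * h + 7) : Cov (L h) n := by
  by_cases hp0_3 : (n - (11 * h + 12)) % 2 = 0
  · exact t0_3 h n ((n - (11 * h + 12)) / 2) hh (by omega) (by omega)
  exact t4_3 h n ((n - (11 * h + 13)) / 2) hh (by omega) (by omega)

theorem w13 (h n : ℕ) (hh : 4 ≤ h) (ha : 13 * h + 8 ≤ n) (hb : n ≤ 13 * h + 12) : Cov (L h) n := by
  have hc : n = 13 * h + 8 ∨ n = 13 * h + 9 ∨ n = 13 * h + 10 ∨ n = 13 * h + 11 ∨ n = 13 * h + 12 := by omega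
  rcases hc with hc | hc | hc | hc | hc
  · exact t0_3 h n ((n - (11 * h + 12)) / 2) hh (by omega) (by omega)
  · exact s3_3 h n hh hc
  · exact s6_2 h n hh hc
  · exact s10_2 h n hh hc
  · exact s8_3 h n hh hc

theorem g13 (h n : ℕ) (hh : 4 ≤ h) (ha : 13 * h + 13 ≤ n) (hb : n ≤ 14 * h + 11) : Cov (L h) n := by
  exact t2_1 h n (14 * h + 11 - n) hh (by omega) (by omega)

theorem w14 (h n : ℕ) (hh : 4 ≤ h) (ha : 14 * h + 12 ≤ n) (hb : n ≤ 14 * h + 15) : Cov (L h) n := by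
  have hc : n = 14 * h + 12 ∨ n = 14 * h + 13 ∨ n = 14 * h + 14 ∨ n = 14 * h + 15 := by omega
  rcases hc with hc | hc | hc | hc
  · exact s9_2 h n hh hc
  · exact s5_2 h n hh hc
  · exact s6_3 h n hh hc
  · exact t1_3 h n ((n - (14 * h + 15)) / 2) hh (by omega) (by omega)

theorem g14 (h n : ℕ) (hh : 4 ≤ h) (ha : 14 * h + 16 ≤ n) (hb : n ≤ 16 * h + 11) : Cov (L h) n := by
  by_cases hp1_3 : (n - (14 * h + 15)) % 2 = 0
  · exact t1_3 h n ((n - (14 * h + 15)) / 2) hh (by omega) (by omega)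
  exact t2_3 h n ((n - (14 * h + 16)) / 2) hh (by omega) (by omega)

theorem w16 (h n : ℕ) (hh : 4 ≤ h) (ha : 16 * h + 12 ≤ n) (hb : n ≤ 16 * h + 13) : Cov (L h) n := by
  have hc : n = 16 * h + 12 ∨ n = 16 * h + 13 := by omega
  rcases hc with hc | hc
  · exact t2_3 h n ((n - (14 * h + 16)) / 2) hh (by omega) (by omega)
  · exact s0_3 h n hh hc

theorem g16 (h n : ℕ) (hh : 4 ≤ h) (ha : 16 * h + 14 ≤ n) (hb : n ≤ 17 * h + 12) : Cov (L h) n := by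
  exact t3_1 h n (17 * h + 12 - n) hh (by omega) (by omega)

theorem w17 (h n : ℕ) (hh : 4 ≤ h) (ha : 17 * h + 13 ≤ n) (hb : n ≤ 17 * h + 15) : Cov (L h) n := by
  have hc : n = 17 * h + 13 ∨ n = 17 * h + 14 ∨ n = 17 * h + 15 := by omega
  rcases hc with hc | hc | hc
  · exact s8_4 h n hh hc
  · exact s9_1 h n hh hc
  · exact s4_3 h n hh hc

theorem g17 (h n : ℕ) (hh : 4 ≤ h) (ha : 17 * h + 16 ≤ n) (hb : n ≤ 18 * h + 13) : Cov (L h) n := by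
  exact t4_2 h n (18 * h + 13 - n) hh (by omega) (by omega)

theorem g18 (h n : ℕ) (hh : 4 ≤ h) (ha : 18 * h + 14 ≤ n) (hb : n ≤ 19 * h + 12) : Cov (L h) n := by
  exact t2_2 h n (19 * h + 12 - n) hh (by omega) (by omega)

theorem w19 (h n : ℕ) (hh : 4 ≤ h) (ha : 19 * h + 13 ≤ n) (hb : n ≤ 19 * h + 16) : Cov (L h) n := by
  have hc : n = 19 * h + 13 ∨ n = 19 * h + 14 ∨ n = 19 * h + 15 ∨ n = 19 * h + 16 := by omega
  rcases hc with hc | hc | hc | hc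
  · exact s5_1 h n hh hc
  · exact s5_3 h n hh hc
  · exact s4_2 h n hh hc
  · exact s0_2 h n hh hc

theorem g19 (h n : ℕ) (hh : 4 ≤ h) (ha : 19 * h + 17 ≤ n) (hb : n ≤ 20 * h + 15) : Cov (L h) n := by
  exact t1_2 h n (20 * h + 15 - n) hh (by omega) (by omega)

theorem w20 (h n : ℕ) (hh : 4 ≤ h) (ha : 20 * h + 16 ≤ n) (hb : n ≤ 20 * h + 17) : Cov (L h) n := by
  have hc : n = 20 * h + 16 ∨ n = 20 * h + 17 := by omega
  rcases hc with hc | hc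
  · exact s3_2 h n hh hc
  · exact s7_1 h n hh hc

theorem g20 (h n : ℕ) (hh : 4 ≤ h) (ha : 20 * h + 18 ≤ n) (hb : n ≤ 21 * h + 16) : Cov (L h) n := by
  exact t5_1 h n (21 * h + 16 - n) hh (by omega) (by omega)

theorem w21 (h n : ℕ) (hh : 4 ≤ h) (ha : 21 * h + 17 ≤ n) (hb : n ≤ 21 * h + 19) : Cov (L h) n := by
  have hc : n = 21 * h + 17 ∨ n = 21 * h + 18 ∨ n = 21 * h + 19 := by omega
  rcases hc with hc | hc | hc
  · exact s10_3 h n hh hc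
  · exact s9_3 h n hh hc
  · exact t3_4 h n ((23 * h + 15 - n) / 2) hh (by omega) (by omega)

theorem g21 (h n : ℕ) (hh : 4 ≤ h) (ha : 21 * h + 20 ≤ n) (hb : n ≤ 23 * h + 15) : Cov (L h) n := by
  by_cases hp3_4 : (23 * h + 15 - n) % 2 = 0
  · exact t3_4 h n ((23 * h + 15 - n) / 2) hh (by omega) (by omega)
  exact t5_3 h n ((n - (21 * h + 20)) / 2) hh (by omega) (by omega)

theorem w23 (h n : ℕ) (hh : 4 ≤ h) (ha : 23 * h + 16 ≤ n) (hb : n ≤ 23 * h + 20) : Cov (L h) n := by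
  have hc : n = 23 * h + 16 ∨ n = 23 * h + 17 ∨ n = 23 * h + 18 ∨ n = 23 * h + 19 ∨ n = 23 * h + 20 := by omega
  rcases hc with hc | hc | hc | hc | hc
  · exact t5_3 h n ((n - (21 * h + 20)) / 2) hh (by omega) (by omega)
  · exact s1_1 h n hh hc
  · exact s11_1 h n hh hc
  · exact s7_3 h n hh hc
  · exact s1_3 h n hh hc

theorem g23 (h n : ℕ) (hh : 4 ≤ h) (ha : 23 * h + 21 ≤ n) (hb : n ≤ 24 * h + 19) : Cov (L h) n := by
  exact t0_2 h n (24 * h + 19 - n) hh (by omega) (by omega)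

theorem w24 (h n : ℕ) (hh : 4 ≤ h) (ha : 24 * h + 20 ≤ n) (hb : n ≤ 24 * h + 23) : Cov (L h) n := by
  have hc : n = 24 * h + 20 ∨ n = 24 * h + 21 ∨ n = 24 * h + 22 ∨ n = 24 * h + 23 := by omega
  rcases hc with hc | hc | hc | hc
  · exact s6_4 h n hh hc
  · exact s8_5 h n hh hc
  · exact s10_4 h n hh hc
  · exact t3_3 h n ((n - (24 * h + 23)) / 2) hh (by omega) (by omega)

theorem g24 (h n : ℕ) (hh : 4 ≤ h) (ha : 24 * h + 24 ≤ n) (hb : n ≤ 26 * h + 19) : Cov (L h) n := by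
  by_cases hp3_3 : (n - (24 * h + 23)) % 2 = 0
  · exact t3_3 h n ((n - (24 * h + 23)) / 2) hh (by omega) (by omega)
  exact t5_4 h n ((26 * h + 20 - n) / 2) hh (by omega) (by omega)

theorem w26 (h n : ℕ) (hh : 4 ≤ h) (ha : 26 * h + 20 ≤ n) (hb : n ≤ 26 * h + 23) : Cov (L h) n := by
  have hc : n = 26 * h + 20 ∨ n = 26 * h + 21 ∨ n = 26 * h + 22 ∨ n = 26 * h + 23 := by omega
  rcases hc with hc | hc | hc | hc
  · exact t5_4 h n ((26 * h + 20 - n) / 2) hh (by omega) (by omega)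
  · exact s2_2 h n hh hc
  · exact s4_4 h n hh hc
  · exact s2_4 h n hh hc

theorem g26 (h n : ℕ) (hh : 4 ≤ h) (ha : 26 * h + 24 ≤ n) (hb : n ≤ 27 * h + 22) : Cov (L h) n := by
  exact t5_5 h n (n - (26 * h + 24)) hh (by omega) (by omega)

theorem w27 (h n : ℕ) (hh : 4 ≤ h) (ha : 27 * h + 23 ≤ n) (hb : n ≤ 27 * h + 25) : Cov (L h) n := by
  have hc : n = 27 * h + 23 ∨ n = 27 * h + 24 ∨ n = 27 * h + 25 := by omega
  rcases hc with hc | hc | hc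
  · exact s11_3 h n hh hc
  · exact s6_5 h n hh hc
  · exact t1_4 h n ((n - (27 * h + 25)) / 2) hh (by omega) (by omega)

theorem g27 (h n : ℕ) (hh : 4 ≤ h) (ha : 27 * h + 26 ≤ n) (hb : n ≤ 29 * h + 20) : Cov (L h) n := by
  by_cases hp1_4 : (n - (27 * h + 25)) % 2 = 0
  · exact t1_4 h n ((n - (27 * h + 25)) / 2) hh (by omega) (by omega)
  exact t4_4 h n ((29 * h + 20 - n) / 2) hh (by omega) (by omega)

theorem w29 (h n : ℕ) (hh : 4 ≤ h) (ha : 29 * h + 21 ≤ n) (hb : n ≤ 29 * h + 25) : Cov (L h) n := by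
  have hc : n = 29 * h + 21 ∨ n = 29 * h + 22 ∨ n = 29 * h + 23 ∨ n = 29 * h + 24 ∨ n = 29 * h + 25 := by omega
  rcases hc with hc | hc | hc | hc | hc
  · exact t1_4 h n ((n - (27 * h + 25)) / 2) hh (by omega) (by omega)
  · exact s1_4 h n hh hc
  · exact s0_4 h n hh hc
  · exact s2_5 h n hh hc
  · exact s1_5 h n hh hc

theorem g29 (h n : ℕ) (hh : 4 ≤ h) (ha : 29 * h + 26 ≤ n) (hb : n ≤ 30 * h + 23) : Cov (L h) n := by
  exact t4_5 h n (n - (29 * h + 26)) hh (by omega) (by omega)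

theorem w30 (h n : ℕ) (hh : 4 ≤ h) (ha : 30 * h + 24 ≤ n) (hb : n ≤ 30 * h + 25) : Cov (L h) n := by
  have hc : n = 30 * h + 24 ∨ n = 30 * h + 25 := by omega
  rcases hc with hc | hc
  · exact s11_4 h n hh hc
  · exact s3_4 h n hh hc

theorem g30 (h n : ℕ) (hh : 4 ≤ h) (ha : 30 * h + 26 ≤ n) (hb : n ≤ 31 * h + 24) : Cov (L h) n := by
  exact t3_5 h n (n - (30 * h + 26)) hh (by omega) (by omega)

theorem w31 (h n : ℕ) (hh : 4 ≤ h) (ha : 31 * h + 25 ≤ n) (hb : n ≤ 31 * h + 27) : Cov (L h) n := by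
  have hc : n = 31 * h + 25 ∨ n = 31 * h + 26 ∨ n = 31 * h + 27 := by omega
  rcases hc with hc | hc | hc
  · exact s7_4 h n hh hc
  · exact s9_4 h n hh hc
  · exact t2_4 h n ((33 * h + 23 - n) / 2) hh (by omega) (by omega)

theorem g31 (h n : ℕ) (hh : 4 ≤ h) (ha : 31 * h + 28 ≤ n) (hb : n ≤ 33 * h + 23) : Cov (L h) n := by
  by_cases hp0_4 : (n - (31 * h + 28)) % 2 = 0
  · exact t0_4 h n ((n - (31 * h + 28)) / 2) hh (by omega) (by omega)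
  exact t2_4 h n ((33 * h + 23 - n) / 2) hh (by omega) (by omega)

theorem w33 (h n : ℕ) (hh : 4 ≤ h) (ha : 33 * h + 24 ≤ n) (hb : n ≤ 33 * h + 27) : Cov (L h) n := by
  have hc : n = 33 * h + 24 ∨ n = 33 * h + 25 ∨ n = 33 * h + 26 ∨ n = 33 * h + 27 := by omega
  rcases hc with hc | hc | hc | hc
  · exact t0_4 h n ((n - (31 * h + 28)) / 2) hh (by omega) (by omega)
  · exact s3_5 h n hh hc
  · exact s5_4 h n hh hc
  · exact s5_5 h n hh hc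

theorem g33 (h n : ℕ) (hh : 4 ≤ h) (ha : 33 * h + 28 ≤ n) (hb : n ≤ 34 * h + 26) : Cov (L h) n := by
  exact t2_5 h n (n - (33 * h + 28)) hh (by omega) (by omega)

theorem w34 (h n : ℕ) (hh : 4 ≤ h) (ha : 34 * h + 27 ≤ n) (hb : n ≤ 34 * h + 29) : Cov (L h) n := by
  have hc : n = 34 * h + 27 ∨ n = 34 * h + 28 ∨ n = 34 * h + 29 := by omega
  rcases hc with hc | hc | hc
  · exact s7_5 h n hh hc
  · exact s10_5 h n hh hc
  · exact s11_5 h n hh hc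

theorem g34 (h n : ℕ) (hh : 4 ≤ h) (ha : 34 * h + 30 ≤ n) (hb : n ≤ 35 * h + 28) : Cov (L h) n := by
  exact t1_5 h n (n - (34 * h + 30)) hh (by omega) (by omega)

theorem w35 (h n : ℕ) (hh : 4 ≤ h) (ha : 35 * h + 29 ≤ n) (hb : n ≤ 35 * h + 30) : Cov (L h) n := by
  have hc : n = 35 * h + 29 ∨ n = 35 * h + 30 := by omega
  rcases hc with hc | hc
  · exact s0_5 h n hh hc
  · exact s9_5 h n hh hc

theorem g35 (h n : ℕ) (hh : 4 ≤ h) (ha : 35 * h + 31 ≤ n) (hb : n ≤ 36 * h + 29) : Cov (L h) n := by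
  exact t0_5 h n (n - (35 * h + 31)) hh (by omega) (by omega)

theorem w36 (h n : ℕ) (hh : 4 ≤ h) (ha : 36 * h + 30 ≤ n) (hb : n ≤ 36 * h + 30) : Cov (L h) n := by
  exact s4_5 h n hh (by omega)

theorem cov (h n : ℕ) (hh : 4 ≤ h) (h1 : 1 ≤ n) (h2 : n ≤ 36 * h + 30) : Cov (L h) n := by
  by_cases c0 : n ≤ 5
  · exact w0 h n hh (by omega) c0
  by_cases c1 : n + 3 ≤ 3 * h
  · exact g0 h n hh (by omega) c1
  by_cases c2 : n ≤ 3 * h + 4
  · exact w3 h n hh (by omega) c2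
  by_cases c3 : n ≤ 4 * h + 3
  · exact g3 h n hh (by omega) c3
  by_cases c4 : n ≤ 4 * h + 5
  · exact w4 h n hh (by omega) c4
  by_cases c5 : n ≤ 5 * h + 4
  · exact g4 h n hh (by omega) c5
  by_cases c6 : n ≤ 6 * h + 3
  · exact g5 h n hh (by omega) c6
  by_cases c7 : n ≤ 6 * h + 6
  · exact w6 h n hh (by omega) c7
  by_cases c8 : n ≤ 7 * h + 5
  · exact g6 h n hh (by omega) c8
  by_cases c9 : n ≤ 7 * h + 10
  · exact w7 h n hh (by omega) c9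
  by_cases c10 : n ≤ 10 * h + 3
  · exact g7 h n hh (by omega) c10
  by_cases c11 : n ≤ 10 * h + 9
  · exact w10 h n hh (by omega) c11
  by_cases c12 : n ≤ 11 * h + 7
  · exact g10 h n hh (by omega) c12
  by_cases c13 : n ≤ 11 * h + 12
  · exact w11 h n hh (by omega) c13
  by_cases c14 : n ≤ 13 * h + 7
  · exact g11 h n hh (by omega) c14
  by_cases c15 : n ≤ 13 * h + 12
  · exact w13 h n hh (by omega) c15
  by_cases c16 : n ≤ 14 * h + 11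
  · exact g13 h n hh (by omega) c16
  by_cases c17 : n ≤ 14 * h + 15
  · exact w14 h n hh (by omega) c17
  by_cases c18 : n ≤ 16 * h + 11
  · exact g14 h n hh (by omega) c18
  by_cases c19 : n ≤ 16 * h + 13
  · exact w16 h n hh (by omega) c19
  by_cases c20 : n ≤ 17 * h + 12
  · exact g16 h n hh (by omega) c20
  by_cases c21 : n ≤ 17 * h + 15
  · exact w17 h n hh (by omega) c21
  by_cases c22 : n ≤ 18 * h + 13
  · exact g17 h n hh (by omega) c22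
  by_cases c23 : n ≤ 19 * h + 12
  · exact g18 h n hh (by omega) c23
  by_cases c24 : n ≤ 19 * h + 16
  · exact w19 h n hh (by omega) c24
  by_cases c25 : n ≤ 20 * h + 15
  · exact g19 h n hh (by omega) c25
  by_cases c26 : n ≤ 20 * h + 17
  · exact w20 h n hh (by omega) c26
  by_cases c27 : n ≤ 21 * h + 16
  · exact g20 h n hh (by omega) c27
  by_cases c28 : n ≤ 21 * h + 19
  · exact w21 h n hh (by omega) c28
  by_cases c29 : n ≤ 23 * h + 15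
  · exact g21 h n hh (by omega) c29
  by_cases c30 : n ≤ 23 * h + 20
  · exact w23 h n hh (by omega) c30
  by_cases c31 : n ≤ 24 * h + 19
  · exact g23 h n hh (by omega) c31
  by_cases c32 : n ≤ 24 * h + 23
  · exact w24 h n hh (by omega) c32
  by_cases c33 : n ≤ 26 * h + 19
  · exact g24 h n hh (by omega) c33
  by_cases c34 : n ≤ 26 * h + 23
  · exact w26 h n hh (by omega) c34
  by_cases c35 : n ≤ 27 * h + 22
  · exact g26 h n hh (by omega) c35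
  by_cases c36 : n ≤ 27 * h + 25
  · exact w27 h n hh (by omega) c36
  by_cases c37 : n ≤ 29 * h + 20
  · exact g27 h n hh (by omega) c37
  by_cases c38 : n ≤ 29 * h + 25
  · exact w29 h n hh (by omega) c38
  by_cases c39 : n ≤ 30 * h + 23
  · exact g29 h n hh (by omega) c39
  by_cases c40 : n ≤ 30 * h + 25
  · exact w30 h n hh (by omega) c40
  by_cases c41 : n ≤ 31 * h + 24
  · exact g30 h n hh (by omega) c41
  by_cases c42 : n ≤ 31 * h + 27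
  · exact w31 h n hh (by omega) c42
  by_cases c43 : n ≤ 33 * h + 23
  · exact g31 h n hh (by omega) c43
  by_cases c44 : n ≤ 33 * h + 27
  · exact w33 h n hh (by omega) c44
  by_cases c45 : n ≤ 34 * h + 26
  · exact g33 h n hh (by omega) c45
  by_cases c46 : n ≤ 34 * h + 29
  · exact w34 h n hh (by omega) c46
  by_cases c47 : n ≤ 35 * h + 28
  · exact g34 h n hh (by omega) c47
  by_cases c48 : n ≤ 35 * h + 30
  · exact w35 h n hh (by omega) c48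
  by_cases c49 : n ≤ 36 * h + 29
  · exact g35 h n hh (by omega) c49
  exact w36 h n hh (by omega) (by omega)

end Pool.Agent.PDF4.R5
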