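import Pool.Agent.PDF4.Basic

set_option autoImplicit false
set_option linter.style.longLine false

/-! Perfect difference families with few blocks of size `4`. -/

namespace Pool.Agent.PDF4

def Db (b : ℕ × ℕ × ℕ) (n : ℕ) : Bool :=
  n == b.1 || n == b.2.1 || n == b.2.2 || n == b.1 + b.2.1 || n == b.2.1 + b.2.2 ||
    n == b.1 + b.2.1 + b.2.2

def chk (m : ℕ) (L : List (ℕ × ℕ × ℕ)) : Bool :=
  L.length == m && (List.range (6 * m)).all fun n => L.any fun b => Db b (n + 1)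

theorem of_chk {m : ℕ} {L : List (ℕ × ℕ × ℕ)} (h : chk m L = true) :
    L.length = m ∧ ∀ n, 1 ≤ n → n ≤ 6 * m → Cov L n := by
  simp only [chk, Bool.and_eq_true, beq_iff_eq, List.all_eq_true, List.mem_range, List.any_eq_true]
    at h
  refine ⟨h.1, fun n h1 h2 => ?_⟩
  obtain ⟨b, hb, hD⟩ := h.2 (n - 1) (by omega)
  rw [Nat.sub_add_cancel h1] at hD
  refine ⟨b, hb, ?_⟩
  simp only [Db, Bool.or_eq_true, beq_iff_eq] at hD
  unfold D
  tauto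

def S1 : List (ℕ × ℕ × ℕ) :=
  [(1, 3, 2)]

theorem hS1 : chk 1 S1 = true := by decide +kernel

def S4 : List (ℕ × ℕ × ℕ) :=
  [(4, 9, 11), (1, 16, 6), (2, 12, 7), (3, 5, 10)]

theorem hS4 : chk 4 S4 = true := by decide +kernel

def S5 : List (ℕ × ℕ × ℕ) :=
  [(4, 10, 16), (11, 1, 17), (3, 20, 5), (6, 13, 8), (2, 7, 15)]

theorem hS5 : chk 5 S5 = true := by decide +kernel

def S6 : List (ℕ × ℕ × ℕ) :=
  [(5, 11, 20), (6, 15, 14), (2, 22, 10), (3, 23, 7), (1, 18, 9), (8, 4, 13)]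

theorem hS6 : chk 6 S6 = true := by decide +kernel

def S7 : List (ℕ × ℕ × ℕ) :=
  [(4, 12, 26), (11, 9, 21), (3, 29, 8), (5, 19, 15), (13, 1, 22), (7, 10, 18), (2, 25, 6)]

theorem hS7 : chk 7 S7 = true := by decide +kernel

def S8 : List (ℕ × ℕ × ℕ) :=
  [(4, 38, 6), (7, 32, 8), (1, 24, 21), (14, 12, 17), (10, 13, 18), (3, 19, 15), (9, 11, 16), (2, 28, 5)]

theorem hS8 : chk 8 S8 = true := by decide +kernel

def S9 : List (ℕ × ℕ × ℕ) :=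
  [(3, 18, 33), (1, 43, 9), (11, 12, 27), (13, 22, 14), (7, 31, 10), (2, 28, 17), (4, 16, 26), (6, 19, 15), (5, 24, 8)]

theorem hS9 : chk 9 S9 = true := by decide +kernel

def S10 : List (ℕ × ℕ × ℕ) :=
  [(3, 37, 20), (24, 1, 34), (4, 46, 8), (5, 38, 13), (11, 21, 23), (6, 33, 14), (10, 26, 16), (18, 9, 22), (7, 12, 29), (15, 2, 28)]

theorem hS10 : chk 10 S10 = true := by decide +kernel

def S11 : List (ℕ × ℕ × ℕ) :=
  [(3, 55, 8), (12, 13, 40), (22, 7, 35), (1, 33, 28), (10, 36, 14), (11, 30, 18), (6, 31, 20), (4, 43, 9), (15, 23, 16), (5, 27, 17), (19, 2, 24)]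

theorem hS11 : chk 11 S11 = true := by decide +kernel

def S12 : List (ℕ × ℕ × ℕ) :=
  [(2, 9, 61), (5, 52, 14), (1, 44, 24), (25, 6, 36), (10, 20, 35), (17, 29, 18), (7, 33, 23), (13, 28, 21), (12, 26, 22), (8, 19, 32), (4, 39, 15), (3, 34, 16)]

theorem hS12 : chk 12 S12 = true := by decide +kernel

def S13 : List (ℕ × ℕ × ℕ) :=
  [(14, 5, 59), (15, 24, 38), (3, 43, 30), (23, 8, 44), (11, 36, 27), (22, 10, 40), (17, 34, 20), (1, 56, 13), (7, 26, 35), (2, 53, 12), (6, 42, 18), (9, 28, 21), (4, 25, 16)]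

theorem hS13 : chk 13 S13 = true := by decide +kernel

def S14 : List (ℕ × ℕ × ℕ) :=
  [(24, 1, 59), (3, 45, 35), (17, 38, 27), (18, 26, 37), (29, 10, 40), (4, 12, 62), (9, 32, 36), (15, 28, 33), (5, 51, 19), (20, 11, 42), (6, 52, 14), (2, 47, 22), (13, 8, 46), (7, 23, 34)]

theorem hS14 : chk 14 S14 = true := by decide +kernel

def S15 : List (ℕ × ℕ × ℕ) :=
  [(21, 25, 44), (1, 29, 59), (19, 42, 26), (5, 23, 58), (20, 13, 52), (14, 27, 43), (34, 11, 38), (4, 62, 16), (6, 18, 56), (8, 40, 31), (2, 53, 22), (3, 36, 37), (9, 51, 12), (17, 15, 35), (7, 47, 10)]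

theorem hS15 : chk 15 S15 = true := by decide +kernel

def S16 : List (ℕ × ℕ × ℕ) :=
  [(9, 67, 20), (21, 33, 41), (13, 10, 71), (11, 26, 56), (19, 8, 65), (16, 39, 36), (30, 29, 31), (5, 78, 6), (3, 47, 38), (24, 22, 40), (14, 34, 32), (7, 44, 28), (25, 17, 35), (1, 57, 12), (4, 49, 15), (2, 43, 18)]

theorem hS16 : chk 16 S16 = true := by decide +kernel

def S17 : List (ℕ × ℕ × ℕ) :=
  [(17, 39, 46), (13, 28, 60), (43, 10, 47), (4, 64, 31), (11, 62, 25), (14, 67, 16), (38, 6, 52), (2, 80, 12), (21, 50, 22), (1, 75, 15), (23, 40, 26), (8, 51, 27), (7, 48, 29), (9, 36, 34), (5, 49, 20), (30, 3, 32), (19, 18, 24)]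

theorem hS17 : chk 17 S17 = true := by decide +kernel

def S18 : List (ℕ × ℕ × ℕ) :=
  [(5, 71, 32), (21, 19, 67), (7, 48, 51), (35, 29, 41), (30, 12, 62), (15, 18, 69), (9, 38, 54), (6, 50, 44), (2, 59, 37), (16, 36, 45), (11, 57, 27), (13, 66, 14), (3, 25, 63), (1, 72, 17), (8, 31, 46), (23, 26, 34), (4, 20, 58), (10, 43, 22)]

theorem hS18 : chk 18 S18 = true := by decide +kernel

def S19 : List (ℕ × ℕ × ℕ) :=
  [(47, 11, 56), (19, 61, 33), (14, 10, 88), (12, 48, 51), (5, 52, 53), (28, 31, 50), (13, 78, 17), (25, 46, 36), (22, 54, 30), (7, 65, 32), (26, 40, 37), (9, 20, 73), (1, 62, 38), (4, 23, 69), (16, 39, 35), (3, 18, 68), (42, 2, 43), (6, 64, 15), (8, 41, 34)]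

theorem hS19 : chk 19 S19 = true := by decide +kernel

def S20 : List (ℕ × ℕ × ℕ) :=
  [(36, 47, 37), (25, 55, 39), (23, 26, 69), (18, 59, 40), (24, 51, 41), (44, 4, 67), (2, 66, 46), (10, 5, 98), (30, 3, 78), (38, 12, 60), (8, 74, 27), (6, 14, 88), (22, 57, 28), (9, 45, 52), (16, 70, 19), (17, 56, 31), (7, 58, 35), (32, 11, 53), (1, 61, 29), (13, 21, 42)]

theorem hS20 : chk 20 S20 = true := by decide +kernel

def S21 : List (ℕ × ℕ × ℕ) :=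
  [(9, 69, 48), (28, 6, 91), (19, 39, 66), (15, 32, 76), (21, 51, 50), (22, 5, 94), (16, 63, 41), (23, 42, 54), (4, 84, 30), (14, 43, 59), (45, 17, 53), (3, 46, 64), (31, 37, 44), (11, 87, 13), (20, 60, 29), (12, 40, 55), (33, 2, 71), (10, 67, 26), (18, 38, 36), (7, 75, 8), (1, 24, 61)]

theorem hS21 : chk 21 S21 = true := by decide +kernel

def S22 : List (ℕ × ℕ × ℕ) :=
  [(12, 32, 86), (25, 30, 72), (24, 33, 71), (3, 49, 70), (6, 48, 69), (31, 61, 20), (34, 60, 19), (4, 39, 66), (2, 78, 15), (5, 77, 14), (28, 7, 90), (13, 74, 29), (16, 68, 47), (21, 85, 23), (18, 22, 67), (41, 17, 42), (11, 65, 56), (50, 1, 63), (9, 101, 10), (26, 62, 36), (27, 46, 53), (8, 37, 38)]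

theorem hS22 : chk 22 S22 = true := by decide +kernel

def S23 : List (ℕ × ℕ × ℕ) :=
  [(26, 40, 72), (1, 33, 103), (5, 105, 25), (11, 64, 59), (2, 51, 80), (8, 82, 42), (55, 6, 68), (19, 81, 28), (12, 84, 31), (18, 79, 29), (27, 50, 48), (9, 67, 46), (3, 83, 35), (32, 39, 49), (13, 44, 62), (30, 22, 65), (14, 24, 78), (21, 70, 23), (7, 94, 10), (15, 45, 47), (36, 20, 43), (37, 17, 41), (4, 69, 16)]

theorem hS23 : chk 23 S23 = true := by decide +kernel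

theorem small (m : ℕ) (h : m = 1 ∨ 4 ≤ m) (h2 : m ≤ 23) :
    ∃ L : List (ℕ × ℕ × ℕ), L.length = m ∧ ∀ n, 1 ≤ n → n ≤ 6 * m → Cov L n := by
  have hc : m = 1 ∨ m = 4 ∨ m = 5 ∨ m = 6 ∨ m = 7 ∨ m = 8 ∨ m = 9 ∨ m = 10 ∨ m = 11 ∨ m = 12 ∨ m = 13 ∨ m = 14 ∨ m = 15 ∨ m = 16 ∨ m = 17 ∨ m = 18 ∨ m = 19 ∨ m = 20 ∨ m = 21 ∨ m = 22 ∨ m = 23 := by omega
  rcases hc with rfl | rfl | rfl | rfl | rfl | rfl | rfl | rfl | rfl | rfl | rfl | rfl | rfl | rfl | rfl | rfl | rfl | rfl | rfl | rfl | rfl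
  · exact ⟨S1, of_chk hS1⟩
  · exact ⟨S4, of_chk hS4⟩
  · exact ⟨S5, of_chk hS5⟩
  · exact ⟨S6, of_chk hS6⟩
  · exact ⟨S7, of_chk hS7⟩
  · exact ⟨S8, of_chk hS8⟩
  · exact ⟨S9, of_chk hS9⟩
  · exact ⟨S10, of_chk hS10⟩
  · exact ⟨S11, of_chk hS11⟩
  · exact ⟨S12, of_chk hS12⟩
  · exact ⟨S13, of_chk hS13⟩
  · exact ⟨S14, of_chk hS14⟩
  · exact ⟨S15, of_chk hS15⟩
  · exact ⟨S16, of_chk hS16⟩
  · exact ⟨S17, of_chk hS17⟩
  · exact ⟨S18, of_chk hS18⟩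
  · exact ⟨S19, of_chk hS19⟩
  · exact ⟨S20, of_chk hS20⟩
  · exact ⟨S21, of_chk hS21⟩
  · exact ⟨S22, of_chk hS22⟩
  · exact ⟨S23, of_chk hS23⟩

end Pool.Agent.PDF4
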