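import Pool.Agent.PDF4.Graph
import Pool.Agent.PDF4.Small
import Pool.Agent.PDF4.R0
import Pool.Agent.PDF4.R1
import Pool.Agent.PDF4.R2
import Pool.Agent.PDF4.R3
import Pool.Agent.PDF4.R4
import Pool.Agent.PDF4.R5
import Pool.Agent.Graceful.Search2

set_option autoImplicit false

/-! Perfect difference families with `m` blocks of size `4` exist for `m = 1` and for all `m ≥ 4`. -/

namespace Pool.Agent.PDF4

open Pool.Agent.Graceful

theorem exists_list (m : ℕ) (h : m = 1 ∨ 4 ≤ m) :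
    ∃ L : List (ℕ × ℕ × ℕ), L.length = m ∧ ∀ n, 1 ≤ n → n ≤ 6 * m → Cov L n := by
  by_cases h2 : m ≤ 23
  · exact small m h h2
  · obtain ⟨k, hk⟩ : ∃ k, k = m / 6 := ⟨_, rfl⟩
    have hc : m = 6 * k + 0 ∨ m = 6 * k + 1 ∨ m = 6 * k + 2 ∨ m = 6 * k + 3 ∨ m = 6 * k + 4 ∨
        m = 6 * k + 5 := by omega
    have h4 : 4 ≤ k := by omega
    rcases hc with rfl | rfl | rfl | rfl | rfl | rfl
    · exact ⟨R0.L k, R0.len k h4, fun n h1 h2 => R0.cov k n h4 h1 (by omega)⟩
    · exact ⟨R1.L k, R1.len k h4, fun n h1 h2 => R1.cov k n h4 h1 (by omega)⟩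
    · exact ⟨R2.L k, R2.len k h4, fun n h1 h2 => R2.cov k n h4 h1 (by omega)⟩
    · exact ⟨R3.L k, R3.len k h4, fun n h1 h2 => R3.cov k n h4 h1 (by omega)⟩
    · exact ⟨R4.L k, R4.len k h4, fun n h1 h2 => R4.cov k n h4 h1 (by omega)⟩
    · exact ⟨R5.L k, R5.len k h4, fun n h1 h2 => R5.cov k n h4 h1 (by omega)⟩

theorem search2 : searchR 12 2 2 0 = false := by decide +kernel

theorem search3 : searchR 18 2 3 0 = false := by decide +kernel

theorem graceful_iff (m : ℕ) (hm : 1 ≤ m) : IsGraceful (B 4 1 m) ↔ m = 1 ∨ 4 ≤ m := by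
  constructor
  · intro h
    by_contra hc
    have h23 : m = 2 ∨ m = 3 := by omega
    rcases h23 with rfl | rfl
    · exact not_graceful_of_searchR 2 2 12 (by norm_num) search2 h
    · exact not_graceful_of_searchR 2 3 18 (by norm_num) search3 h
  · intro h
    obtain ⟨L, h1, h2⟩ := exists_list m h
    exact graceful_of_list m L h1 h2

end Pool.Agent.PDF4
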